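import Pool.Agent.Helper86.Poly.Goals

set_option autoImplicit false

namespace Pool.Agent.Helper10.Poly

open Pool.Agent.Helper86.Poly
open MeasureTheory Set

namespace PkAUG

theorem thm : G_AUG := by
  intro d n p hd hp hint
  set P : Set (E d) := convexHull ℝ (range p) with hP
  have hfin : (range p).Finite := Set.finite_range p
  have hcpt : IsCompact P := hfin.isCompact_convexHull (𝕜 := ℝ)
  have hsub : range p ⊆ P := subset_convexHull ℝ _
  have hfr : Module.finrank ℝ (E d) = d := by simp
  have : Nontrivial (E d) := Module.nontrivial_of_finrank_pos (R := ℝ) (by omega)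
  have : NoncompactSpace (E d) := NormedSpace.noncompactSpace ℝ (E d)
  have hrank : 1 < Module.rank ℝ (E d) := by
    rw [← Module.finrank_eq_rank, hfr]
    exact_mod_cast (by omega : 1 < d)
  have hne : P ≠ univ := hcpt.ne_univ
  -- a point of the frontier outside of the finite set
  obtain ⟨x, hxf, hxr⟩ : ∃ x ∈ frontier P, x ∉ range p := by
    by_contra hcon
    push Not at hcon
    have hconn : IsConnected (range p)ᶜ := hfin.countable.isConnected_compl_of_one_lt_rank hrank
    have h1 : (range p)ᶜ ⊆ interior P ∪ Pᶜ := by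
      intro y hy
      by_cases hyP : y ∈ P
      · left
        by_contra hyi
        apply hy
        apply hcon
        exact ⟨subset_closure hyP, hyi⟩
      · right
        exact hyP
    have h2 : ((range p)ᶜ ∩ interior P).Nonempty := by
      obtain ⟨z, hz⟩ := hint
      have hinf : (interior P).Infinite := infinite_of_mem_nhds z (isOpen_interior.mem_nhds hz)
      obtain ⟨y, hy1, hy2⟩ := (hinf.sdiff hfin).nonempty
      exact ⟨y, hy2, hy1⟩
    have h3 : ((range p)ᶜ ∩ Pᶜ).Nonempty := by
      obtain ⟨y, hy⟩ := (Set.ne_univ_iff_exists_notMem P).mp hne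
      exact ⟨y, fun h => hy (hsub h), hy⟩
    obtain ⟨y, _, hy1, hy2⟩ :=
      hconn.isPreconnected (interior P) Pᶜ isOpen_interior hcpt.isClosed.isOpen_compl h1 h2 h3
    exact hy2 (interior_subset hy1)
  have hxP : x ∈ P := by
    have := hxf.1
    rwa [hcpt.isClosed.closure_eq] at this
  have hxe : x ∉ P.extremePoints ℝ := fun h => hxr (extremePoints_convexHull_subset h)
  obtain ⟨x₁, hx₁, x₂, hx₂, hseg, hne12⟩ : ∃ x₁ ∈ P, ∃ x₂ ∈ P, x ∈ openSegment ℝ x₁ x₂ ∧ x₁ ≠ x₂ := by
    by_contra hcon
    push Not at hcon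
    apply hxe
    rw [mem_extremePoints]
    refine ⟨hxP, ?_⟩
    intro y₁ hy₁ y₂ hy₂ hy
    have h12 := hcon y₁ hy₁ y₂ hy₂ hy
    subst h12
    rw [openSegment_same] at hy
    have : x = y₁ := hy
    first
      | exact this.symm
      | exact ⟨this.symm, this.symm⟩
  have hball : ∀ i, P ⊆ Metric.closedBall (p i) 1 := by
    intro i
    apply convexHull_min _ (convex_closedBall _ _)
    rintro _ ⟨j, rfl⟩
    exact hp j i
  have hx1 : ∀ i, x ∈ Metric.ball (p i) 1 := fun i =>
    openSegment_subset_ball_of_ne (hball i hx₁) (hball i hx₂) hne12 hseg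
  have hopen : IsOpen (⋂ i, Metric.ball (p i) 1) := isOpen_iInter_of_finite (fun i => Metric.isOpen_ball)
  have hxcl : x ∈ closure Pᶜ := by
    rw [frontier_eq_closure_inter_closure] at hxf
    exact hxf.2
  obtain ⟨w, hw1, hw2⟩ := mem_closure_iff.mp hxcl _ hopen (mem_iInter.mpr hx1)
  refine ⟨w, hw2, fun i => ?_⟩
  have := mem_iInter.mp hw1 i
  exact (Metric.mem_ball.mp this).le

end PkAUG

end Pool.Agent.Helper10.Poly
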